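import Mathlib

/-!
# MP_bd8ab5_nt, Q1: recognising contracted proportionally modular numerical semigroups

The algorithm exists: if `S` contains every `n ≥ N` (`N ≥ 1`), then `S` is contracted
proportionally modular iff it is `P(a,b,c,d) ∪ {0}` with `a,b,c,d` below an explicit bound.
-/

namespace Pool.Agent.Results.MP_bd8ab5_nt.CPMDecidable

/-- `P(a,b,c,d) = {x ∈ ℤ : a x mod b ≤ c x - d}`. -/
def P (a b c d : ℕ) : Set ℤ := {x : ℤ | ((a : ℤ) * x) % (b : ℤ) ≤ (c : ℤ) * x - (d : ℤ)}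

/-- A set `S ⊆ ℕ` is contracted proportionally modular: as a set of integers it equals
`P(a,b,c,d) ∪ {0}` for nonnegative integers `a,b,c,d` with `b ≠ 0`, `c ≠ 0`. -/
def IsCPM (S : Set ℕ) : Prop :=
  ∃ a b c d : ℕ, b ≠ 0 ∧ c ≠ 0 ∧ (fun n : ℕ => (n : ℤ)) '' S = P a b c d ∪ {0}

/-- the bound -/
def bnd (N : ℕ) : ℕ :=
  (4 * (2 * N).factorial + 4 * ((2 * N).factorial * (2 * N)) + 4) * (2 * N + 1) + 1

/-- the finite check -/
def chk (m : ℕ → Prop) (N a b c d : ℕ) : Prop :=
  b ≠ 0 ∧ c ≠ 0 ∧ ∀ x < 2 * N + 1, x = 0 ∨ (m x ↔ (a * x) % b + d ≤ c * x)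

lemma mem_P_nat (a b c d x : ℕ) : ((x : ℤ) ∈ P a b c d) ↔ (a * x) % b + d ≤ c * x := by
  unfold P
  rw [Set.mem_ofPred_eq]
  constructor
  · intro h
    have : (((a * x) % b + d : ℕ) : ℤ) ≤ ((c * x : ℕ) : ℤ) := by
      push_cast; linarith
    exact_mod_cast this
  · intro h
    have : (((a * x) % b + d : ℕ) : ℤ) ≤ ((c * x : ℕ) : ℤ) := by exact_mod_cast h
    push_cast at this
    linarith

lemma cpm_iff (S : AddSubmonoid ℕ) (a b c d : ℕ) (hb : b ≠ 0) (hc : c ≠ 0) :
    ((fun n : ℕ => (n : ℤ)) '' (S : Set ℕ) = P a b c d ∪ {0}) ↔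
      ∀ x : ℕ, x = 0 ∨ (x ∈ S ↔ (a * x) % b + d ≤ c * x) := by
  constructor
  · intro h x
    by_cases hx : x = 0
    · exact Or.inl hx
    · right
      rw [← mem_P_nat]
      have h1 : (x : ℤ) ∈ (fun n : ℕ => (n : ℤ)) '' (S : Set ℕ) ↔ (x : ℤ) ∈ P a b c d ∪ {0} := by
        rw [h]
      have h2 : (x : ℤ) ∈ (fun n : ℕ => (n : ℤ)) '' (S : Set ℕ) ↔ x ∈ S := by
        constructor
        · rintro ⟨y, hy, hyx⟩
          have : y = x := by simpa using hyx
          rw [← this]; exact hy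
        · intro hx; exact ⟨x, hx, rfl⟩
      have h3 : (x : ℤ) ∈ P a b c d ∪ {0} ↔ (x : ℤ) ∈ P a b c d := by
        rw [Set.mem_union, Set.mem_singleton_iff]
        constructor
        · rintro (h | h)
          · exact h
          · exact absurd (by exact_mod_cast h) hx
        · exact Or.inl
      rw [← h2, h1, h3]
  · intro h
    ext z
    constructor
    · rintro ⟨y, hy, rfl⟩
      rcases h y with h0 | h1
      · right; simp [h0]
      · left; show ((y : ℕ) : ℤ) ∈ _; rw [mem_P_nat]; exact h1.1 hy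
    · rintro (hz | hz)
      · have hz0 : 0 ≤ z := by
          by_contra hneg
          push Not at hneg
          unfold P at hz
          rw [Set.mem_ofPred_eq] at hz
          have h1 : 0 ≤ ((a : ℤ) * z) % (b : ℤ) := Int.emod_nonneg _ (by exact_mod_cast hb)
          have h2 : (c : ℤ) * z < 0 := by
            apply mul_neg_of_pos_of_neg _ hneg
            have : 0 < c := Nat.pos_of_ne_zero hc
            exact_mod_cast this
          have h3 : (0 : ℤ) ≤ d := by positivity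
          linarith
        obtain ⟨x, rfl⟩ := Int.eq_ofNat_of_zero_le hz0
        refine ⟨x, ?_, rfl⟩
        rcases h x with h0 | h1
        · rw [h0]; exact S.zero_mem
        · exact h1.2 ((mem_P_nat a b c d x).1 hz)
      · rw [Set.mem_singleton_iff] at hz
        exact ⟨0, S.zero_mem, by simp [hz]⟩

lemma P_add (a b c d x y : ℕ) (hx : (a * x) % b + d ≤ c * x)
    (hy : (a * y) % b + d ≤ c * y) : (a * (x + y)) % b + d ≤ c * (x + y) := by
  have h : (a * (x + y)) % b ≤ (a * x) % b + (a * y) % b := by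
    rw [Nat.mul_add, Nat.add_mod]
    exact Nat.mod_le _ _
  have h2 : c * (x + y) = c * x + c * y := by ring
  omega

lemma chk_sound (S : AddSubmonoid ℕ) (N : ℕ) (hN : 1 ≤ N) (hS : ∀ n ≥ N, n ∈ S)
    (a b c d : ℕ) (h : chk (· ∈ S) N a b c d) : IsCPM (S : Set ℕ) := by
  obtain ⟨hb, hc, h⟩ := h
  refine ⟨a, b, c, d, hb, hc, (cpm_iff S a b c d hb hc).2 ?_⟩
  have key : ∀ x, N ≤ x → (a * x) % b + d ≤ c * x := by
    intro x
    induction x using Nat.strong_induction_on with
    | _ x ih =>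
      intro hx
      by_cases hx2 : x < 2 * N + 1
      · rcases h x hx2 with h0 | h1
        · omega
        · exact h1.1 (hS x hx)
      · have h1 := ih (x - N) (by omega) (by omega)
        have h2 := ih N (by omega) le_rfl
        have h3 := P_add a b c d _ _ h1 h2
        have h4 : x - N + N = x := by omega
        rw [h4] at h3
        exact h3
  intro x
  by_cases hx2 : x < 2 * N + 1
  · exact h x hx2
  · right
    exact ⟨fun _ => key x (by omega), fun _ => hS x (by omega)⟩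

/-- threshold lemma -/
lemma thresh (Q M : ℤ) (hQ : 0 < Q) (b : ℤ) (hb : 0 < b) (e : ℤ) (T : ℤ)
    (hT : T = max (⌊((e * Q : ℤ) : ℚ) / (b : ℚ)⌋ + ⌈((e * Q : ℤ) : ℚ) / (b : ℚ)⌉) (-2 * M - 2))
    (m k q : ℤ) (hm : m ≠ 0) (hmq : |m| * q = Q) (hk : |k * q| ≤ M) :
    (e * m ≤ b * k ↔ T * m ≤ 2 * Q * k) := by
  set t : ℚ := ((e * Q : ℤ) : ℚ) / (b : ℚ) with ht
  have hbq : (0 : ℚ) < (b : ℚ) := by exact_mod_cast hb
  have hfc : ⌈t⌉ ≤ ⌊t⌋ + 1 := Int.ceil_le_floor_add_one t
  have hff : ⌊t⌋ ≤ ⌈t⌉ := Int.floor_le_ceil t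
  have hA : ∀ n : ℤ, |n| ≤ M → (t ≤ n ↔ T ≤ 2 * n) := by
    intro n hn
    rw [abs_le] at hn
    rw [← Int.ceil_le]
    omega
  have hB : ∀ n : ℤ, |n| ≤ M → ((n : ℚ) ≤ t ↔ 2 * n ≤ T) := by
    intro n hn
    rw [abs_le] at hn
    rw [← Int.le_floor]
    omega
  have hq : 0 < q := by
    have : 0 < |m| := abs_pos.2 hm
    by_contra hcon
    push Not at hcon
    have : |m| * q ≤ 0 := mul_nonpos_of_nonneg_of_nonpos (abs_nonneg m) hcon
    linarith
  rcases lt_or_gt_of_ne hm with hneg | hpos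
  · -- m < 0
    rw [abs_of_neg hneg] at hmq
    have h1 : (e * m ≤ b * k) ↔ ((-(k * q) : ℤ) : ℚ) ≤ t := by
      rw [ht, le_div_iff₀ hbq]
      rw [← mul_le_mul_iff_left₀ hq]
      constructor
      · intro h
        have : -(k * q) * b ≤ e * Q := by rw [← hmq]; linarith
        exact_mod_cast this
      · intro h
        have h' : -(k * q) * b ≤ e * Q := by exact_mod_cast h
        rw [← hmq] at h'
        linarith
    rw [h1, hB _ (by rw [abs_neg]; exact hk)]
    constructor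
    · intro h
      have := mul_le_mul_of_nonpos_right h hneg.le
      rw [← hmq]; linarith
    · intro h
      rw [← hmq] at h
      have h' : (2 * -(k * q)) * (-m) ≤ T * (-m) := by linarith
      exact le_of_mul_le_mul_right h' (by linarith)
  · -- m > 0
    rw [abs_of_pos hpos] at hmq
    have h1 : (e * m ≤ b * k) ↔ t ≤ ((k * q : ℤ) : ℚ) := by
      rw [ht, div_le_iff₀ hbq]
      rw [← mul_le_mul_iff_left₀ hq]
      constructor
      · intro h
        have : e * Q ≤ (k * q) * b := by rw [← hmq]; linarith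
        exact_mod_cast this
      · intro h
        have h' : e * Q ≤ (k * q) * b := by exact_mod_cast h
        rw [← hmq] at h'
        linarith
    rw [h1, hA _ hk]
    constructor
    · intro h
      have := mul_le_mul_of_nonneg_right h hpos.le
      rw [← hmq]; linarith
    · intro h
      rw [← hmq] at h
      have h' : T * m ≤ (2 * (k * q)) * m := by linarith
      exact le_of_mul_le_mul_right h' hpos


lemma div_floor (a b x k : ℕ) (h1 : b * k ≤ a * x) (h2 : a * x < b * (k + 1)) :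
    (a * x) / b = k := by
  apply Nat.div_eq_of_lt_le
  · rw [mul_comm k b]; exact h1
  · rw [mul_comm (k + 1) b]; exact h2

/-- completeness of the bounded search -/
lemma chk_complete (S : AddSubmonoid ℕ) (N : ℕ) (hN : 1 ≤ N) (hS : ∀ n ≥ N, n ∈ S)
    (h : IsCPM (S : Set ℕ)) :
    ∃ a < bnd N, ∃ b < bnd N, ∃ c < bnd N, ∃ d < bnd N, chk (· ∈ S) N a b c d := by
  classical
  obtain ⟨a₀, b, c, d, hb0, hc0, hP⟩ := h
  have hP := (cpm_iff S a₀ b c d hb0 hc0).1 hP
  have hb : 0 < b := Nat.pos_of_ne_zero hb0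
  have hc : 0 < c := Nat.pos_of_ne_zero hc0
  -- reduce a modulo b
  set a : ℕ := a₀ % b with ha
  have hab : a < b := Nat.mod_lt _ hb
  have hP' : ∀ x : ℕ, x ≠ 0 → (x ∈ S ↔ (a * x) % b + d ≤ c * x) := by
    intro x hx
    rcases hP x with h0 | h1
    · exact absurd h0 hx
    · have : (a * x) % b = (a₀ * x) % b := by
        rw [ha]; exact Nat.ModEq.mul_right x (Nat.mod_modEq a₀ b)
      rw [this]; exact h1
  set X : ℕ := 2 * N with hX
  set Q : ℕ := X.factorial with hQ
  have hQ0 : 0 < Q := Nat.factorial_pos X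
  set k : ℕ → ℕ := fun x => (a * x) / b with hk
  have hk1 : ∀ x, b * k x ≤ a * x := fun x => Nat.mul_div_le _ _
  have hk2 : ∀ x, a * x < b * (k x + 1) := fun x => Nat.lt_mul_div_succ _ hb
  have hkx : ∀ x, k x ≤ x := by
    intro x
    have h1 := hk1 x
    have h2 : a * x ≤ b * x := Nat.mul_le_mul_right x hab.le
    exact Nat.le_of_mul_le_mul_left (h1.trans h2) hb
  have hmod : ∀ x, ((a * x) % b : ℕ) + b * k x = a * x := fun x => Nat.mod_add_div _ _
  set e : ℤ := (a : ℤ) - (c : ℤ) with he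
  have hPz : ∀ x : ℕ, x ≠ 0 → (x ∈ S ↔ e * x + d ≤ b * k x) := by
    intro x hx
    rw [hP' x hx]
    have h1 := hmod x
    constructor
    · intro h
      have h1' : (((a * x) % b : ℕ) : ℤ) + b * k x = a * x := by exact_mod_cast h1
      have h2 : (((a * x) % b : ℕ) : ℤ) + d ≤ c * x := by exact_mod_cast h
      rw [he]; linarith
    · intro h
      have h1' : (((a * x) % b : ℕ) : ℤ) + b * k x = a * x := by exact_mod_cast h1
      have h2 : (((a * x) % b : ℕ) : ℤ) + d ≤ c * x := by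
        rw [he] at h; linarith
      exact_mod_cast h2
  -- choose x₀
  have hne : ((Finset.Icc 1 X).filter (· ∈ S)).Nonempty :=
    ⟨N, by
      rw [Finset.mem_filter, Finset.mem_Icc]
      exact ⟨⟨hN, by omega⟩, hS N le_rfl⟩⟩
  obtain ⟨x₀, hx₀, hmin⟩ := Finset.exists_min_image _ (fun x : ℕ => (b : ℤ) * k x - e * x) hne
  rw [Finset.mem_filter, Finset.mem_Icc] at hx₀
  obtain ⟨⟨hx₀1, hx₀X⟩, hx₀S⟩ := hx₀
  have hx₀0 : x₀ ≠ 0 := by omega
  have hd0 := (hPz x₀ hx₀0).1 hx₀S
  have hcond : ∀ x : ℕ, 1 ≤ x → x ≤ X →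
      (x ∈ S ↔ e * ((x : ℤ) - x₀) ≤ b * ((k x : ℤ) - k x₀)) := by
    intro x hx1 hxX
    constructor
    · intro hxS
      have := hmin x (by rw [Finset.mem_filter, Finset.mem_Icc]; exact ⟨⟨hx1, hxX⟩, hxS⟩)
      linarith
    · intro h
      rw [hPz x (by omega)]
      linarith
  set M : ℤ := (Q : ℤ) * X with hM
  have hM0 : 0 ≤ M := by positivity
  set t : ℚ := ((e * Q : ℤ) : ℚ) / ((b : ℤ) : ℚ) with ht
  obtain ⟨T, hT⟩ : ∃ T : ℤ, T = max (⌊t⌋ + ⌈t⌉) (-2 * M - 2) := ⟨_, rfl⟩
  have hbz : (0 : ℤ) < (b : ℤ) := by exact_mod_cast hb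
  have hQz : (0 : ℤ) < (Q : ℤ) := by exact_mod_cast hQ0
  have hth : ∀ m kk q : ℤ, m ≠ 0 → |m| * q = Q → |kk * q| ≤ M →
      (e * m ≤ b * kk ↔ T * m ≤ 2 * Q * kk) :=
    fun m kk q h1 h2 h3 => thresh (Q : ℤ) M hQz (b : ℤ) hbz e T hT m kk q h1 h2 h3
  -- j
  set j : ℕ := (a * Q) / b with hj
  have hj1 : b * j ≤ a * Q := Nat.mul_div_le _ _
  have hj2 : a * Q < b * (j + 1) := Nat.lt_mul_div_succ _ hb
  have hjQ : j < Q := by
    have h1 : b * j < b * Q := lt_of_le_of_lt hj1 (Nat.mul_lt_mul_of_pos_right hab hQ0)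
    exact Nat.lt_of_mul_lt_mul_left h1
  -- T ≤ 2 j + 1
  have hTj : T ≤ 2 * j + 1 := by
    have h1 : t < (j : ℚ) + 1 := by
      rw [ht, div_lt_iff₀ (by exact_mod_cast hb)]
      have h3 : e * Q < ((j : ℤ) + 1) * b := by
        have h4 : (a : ℤ) * Q < b * (j + 1) := by exact_mod_cast hj2
        have h5 : 0 ≤ (c : ℤ) * Q := by positivity
        have h6 : e * Q = (a : ℤ) * Q - c * Q := by rw [he]; ring
        linarith
      exact_mod_cast h3
    have h2 : ⌈t⌉ ≤ (j : ℤ) + 1 := by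
      rw [Int.ceil_le]; push_cast; exact h1.le
    have h3 : ⌊t⌋ < (j : ℤ) + 1 := by
      rw [Int.floor_lt]; push_cast; exact h1
    have hj0 : (0 : ℤ) ≤ (j : ℤ) := Int.natCast_nonneg j
    have h4 : ⌊t⌋ ≤ (j : ℤ) := by linarith [Int.lt_iff_add_one_le.1 h3]
    rw [hT]
    apply max_le
    · linarith
    · linarith
  have hTlow : -2 * M - 2 ≤ T := by rw [hT]; exact le_max_right _ _
  -- floors for the new parameters
  have hdvd : ∀ m : ℕ, 1 ≤ m → m ≤ X → ∃ q : ℕ, m * q = Q := by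
    intro m hm1 hmX
    obtain ⟨q, hq⟩ := Nat.dvd_factorial hm1 hmX
    exact ⟨q, hq.symm⟩
  have hfloor : ∀ x : ℕ, 1 ≤ x → x ≤ X → ((4 * j + 3) * x) / (4 * Q) = k x := by
    intro x hx1 hxX
    obtain ⟨q, hq⟩ := hdvd x hx1 hxX
    have hq0 : 0 < q := by
      rcases Nat.eq_zero_or_pos q with h | h
      · rw [h] at hq; omega
      · exact h
    have hkj : k x * q ≤ j := by
      have h1 : b * (k x * q) < b * (j + 1) := by
        calc b * (k x * q) = (b * k x) * q := by ring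
          _ ≤ (a * x) * q := Nat.mul_le_mul_right q (hk1 x)
          _ = a * Q := by rw [← hq]; ring
          _ < b * (j + 1) := hj2
      have := Nat.lt_of_mul_lt_mul_left h1
      omega
    have hjk : j < (k x + 1) * q := by
      have h1 : b * j < b * ((k x + 1) * q) := by
        calc b * j ≤ a * Q := hj1
          _ = (a * x) * q := by rw [← hq]; ring
          _ < (b * (k x + 1)) * q := Nat.mul_lt_mul_of_pos_right (hk2 x) hq0
          _ = b * ((k x + 1) * q) := by ring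
      exact Nat.lt_of_mul_lt_mul_left h1
    apply div_floor
    · calc 4 * Q * k x = 4 * x * (k x * q) := by rw [← hq]; ring
        _ ≤ 4 * x * j := Nat.mul_le_mul_left _ hkj
        _ ≤ (4 * j + 3) * x := by nlinarith
    · calc (4 * j + 3) * x < 4 * (j + 1) * x := by nlinarith
        _ ≤ 4 * ((k x + 1) * q) * x := by
            apply Nat.mul_le_mul_right
            omega
        _ = 4 * Q * (k x + 1) := by rw [← hq]; ring
  -- the new c and d
  have hc' : (1 : ℤ) ≤ (4 * j + 3) - 2 * T := by linarith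
  obtain ⟨c', hc'e⟩ : ∃ c' : ℕ, (c' : ℤ) = (4 * j + 3) - 2 * T :=
    ⟨((4 * (j : ℤ) + 3) - 2 * T).toNat, by rw [Int.toNat_of_nonneg (by linarith)]⟩
  have hkq : ∀ (x : ℕ) (q : ℕ), 1 ≤ x → x * q = Q → q ≤ Q := by
    intro x q hx hxq
    calc q = 1 * q := by ring
      _ ≤ x * q := Nat.mul_le_mul_right q hx
      _ = Q := hxq
  have hd' : (0 : ℤ) ≤ 4 * Q * k x₀ - 2 * T * x₀ := by
    obtain ⟨q, hq⟩ := hdvd x₀ hx₀1 hx₀X
    have hqQ := hkq x₀ q hx₀1 hq
    have h1 := (hth (x₀ : ℤ) (k x₀ : ℤ) (q : ℤ) (by exact_mod_cast hx₀0)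
      (by rw [abs_of_nonneg (by positivity)]; exact_mod_cast hq)
      (by
        rw [abs_of_nonneg (by positivity)]
        have h2 : k x₀ * q ≤ Q * X := by
          rw [mul_comm]
          exact Nat.mul_le_mul hqQ ((hkx x₀).trans hx₀X)
        rw [hM]; exact_mod_cast h2)).1 (by
          have h3 : (0 : ℤ) ≤ d := by positivity
          linarith)
    linarith
  obtain ⟨d', hd'e⟩ : ∃ d' : ℕ, (d' : ℤ) = 4 * Q * k x₀ - 2 * T * x₀ :=
    ⟨(4 * (Q : ℤ) * k x₀ - 2 * T * x₀).toNat, by rw [Int.toNat_of_nonneg hd']⟩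
  have hcheck : ∀ x : ℕ, 1 ≤ x → x ≤ X →
      (x ∈ S ↔ ((4 * j + 3) * x) % (4 * Q) + d' ≤ c' * x) := by
    intro x hx1 hxX
    have hm : ((4 * j + 3) * x) % (4 * Q) + (4 * Q) * k x = (4 * j + 3) * x := by
      rw [← hfloor x hx1 hxX]; exact Nat.mod_add_div _ _
    have hm' : ((((4 * j + 3) * x) % (4 * Q) : ℕ) : ℤ) + (4 * Q) * k x = (4 * j + 3) * x := by
      exact_mod_cast hm
    have hR : (((4 * j + 3) * x) % (4 * Q) + d' ≤ c' * x) ↔
        (T * ((x : ℤ) - x₀) ≤ 2 * Q * ((k x : ℤ) - k x₀)) := by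
      have h0 : (((4 * j + 3) * x) % (4 * Q) + d' ≤ c' * x) ↔
          (((((4 * j + 3) * x) % (4 * Q) : ℕ) : ℤ) + d' ≤ c' * x) := by
        constructor
        · intro h; exact_mod_cast h
        · intro h; exact_mod_cast h
      rw [h0, hd'e, hc'e]
      constructor
      · intro h; linarith
      · intro h; linarith
    rw [hR, hcond x hx1 hxX]
    by_cases hxx : (x : ℤ) - x₀ = 0
    · have hxx' : x = x₀ := by omega
      rw [hxx']
      simp
    · obtain ⟨q, hq⟩ := hdvd ((x : ℤ) - x₀).natAbs (by omega) (by omega)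
      have hqQ := hkq _ q (by omega) hq
      apply hth _ _ (q : ℤ) hxx
      · rw [Int.abs_eq_natAbs]; exact_mod_cast hq
      · rw [abs_mul, hM, mul_comm]
        apply mul_le_mul
        · rw [abs_of_nonneg (by positivity)]; exact_mod_cast hqQ
        · have h1 := hkx x
          have h2 := hkx x₀
          rw [abs_le]
          constructor <;> omega
        · exact abs_nonneg _
        · positivity
  -- bounds
  have hbnd : bnd N = (4 * Q + 4 * (Q * X) + 4) * (X + 1) + 1 := rfl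
  set W : ℕ := 4 * Q + 4 * (Q * X) + 4 with hW
  have hWX : W ≤ W * (X + 1) := Nat.le_mul_of_pos_right _ (by omega)
  have hWz : (W : ℤ) = 4 * Q + 4 * M + 4 := by rw [hW, hM]; push_cast; ring
  refine ⟨4 * j + 3, by omega, 4 * Q, by omega, c', ?_, d', ?_, by omega, ?_, ?_⟩
  · have h1 : (c' : ℤ) ≤ W := by
      rw [hc'e, hWz]
      have : (j : ℤ) + 1 ≤ Q := by exact_mod_cast hjQ
      linarith
    have h2 : c' ≤ W := by exact_mod_cast h1
    omega
  · have h1 : (d' : ℤ) ≤ W * (X + 1) := by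
      rw [hd'e, hWz]
      have hk0 : (k x₀ : ℤ) ≤ X := by exact_mod_cast (hkx x₀).trans hx₀X
      have hx0 : (x₀ : ℤ) ≤ X := by exact_mod_cast hx₀X
      have hx0' : (0 : ℤ) ≤ x₀ := by positivity
      have e1 : 4 * (Q : ℤ) * k x₀ ≤ 4 * Q * X :=
        mul_le_mul_of_nonneg_left hk0 (by positivity)
      have e2 : -2 * T * x₀ ≤ (4 * M + 4) * x₀ :=
        mul_le_mul_of_nonneg_right (by linarith) hx0'
      have e3 : (4 * M + 4) * (x₀ : ℤ) ≤ (4 * M + 4) * X :=
        mul_le_mul_of_nonneg_left hx0 (by linarith)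
      nlinarith
    have h2 : d' ≤ W * (X + 1) := by exact_mod_cast h1
    omega
  · intro h0
    rw [h0] at hc'e
    push_cast at hc'e
    linarith
  · intro x hx
    by_cases hx0 : x = 0
    · exact Or.inl hx0
    · exact Or.inr (hcheck x (by omega) (by omega))

/-! ### Computability -/

section comp

open Primrec

variable {β : Type*} [Primcodable β]

lemma ex_lt {p : β → ℕ → Prop} (hp : PrimrecRel p) {f : β → ℕ} (hf : Primrec f) :
    PrimrecPred fun x => ∃ y < f x, p x y := by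
  have h1 : PrimrecRel (fun (y : ℕ) (x : β) => p x y) := hp.comp snd fst
  have h2 := h1.exists_mem_list.comp (list_range.comp hf) Primrec.id
  exact h2.of_eq (by intro x; simp)

lemma all_lt {p : β → ℕ → Prop} (hp : PrimrecRel p) {f : β → ℕ} (hf : Primrec f) :
    PrimrecPred fun x => ∀ y < f x, p x y := by
  have h1 : PrimrecRel (fun (y : ℕ) (x : β) => p x y) := hp.comp snd fst
  have h2 := h1.forall_mem_list.comp (list_range.comp hf) Primrec.id
  exact h2.of_eq (by intro x; simp)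

lemma pred_iff {p q : β → Prop} (hp : PrimrecPred p) (hq : PrimrecPred q) :
    PrimrecPred fun x => (p x ↔ q x) :=
  ((hp.and hq).or (hp.not.and hq.not)).of_eq (by intro x; tauto)

lemma fact_prim : Primrec Nat.factorial := by
  have h : Primrec (fun n : ℕ => Nat.rec (motive := fun _ => ℕ) 1 (fun n r => (n + 1) * r) n) :=
    nat_rec₁ 1 (nat_mul.comp (succ.comp fst) snd)
  refine h.of_eq ?_
  intro n
  induction n with
  | zero => rfl
  | succ n ih =>
    show (n + 1) * _ = _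
    rw [ih]; rfl

lemma bnd_prim : Primrec bnd := by
  have h2 : Primrec (fun N : ℕ => 2 * N) := nat_mul.comp (const 2) Primrec.id
  have hf : Primrec (fun N : ℕ => (2 * N).factorial) := fact_prim.comp h2
  have e1 : Primrec (fun N : ℕ => 4 * (2 * N).factorial) := nat_mul.comp (const 4) hf
  have e2 : Primrec (fun N : ℕ => 4 * ((2 * N).factorial * (2 * N))) :=
    nat_mul.comp (const 4) (nat_mul.comp hf h2)
  have e3 : Primrec (fun N : ℕ => 4 * (2 * N).factorial + 4 * ((2 * N).factorial * (2 * N)) + 4) :=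
    nat_add.comp (nat_add.comp e1 e2) (const 4)
  have e4 : Primrec (fun N : ℕ => 2 * N + 1) := nat_add.comp h2 (const 1)
  exact nat_add.comp (nat_mul.comp e3 e4) (const 1)

/-- the bounded search, relative to a membership relation -/
def srch (mem : β → ℕ → Prop) (s : β) (N : ℕ) : Prop :=
  ∃ a < bnd N, ∃ b < bnd N, ∃ c < bnd N, ∃ d < bnd N, chk (mem s) N a b c d

lemma srch_prim (mem : β → ℕ → Prop) (hm : PrimrecRel mem) : PrimrecRel (srch mem) := by
  unfold srch
  refine ex_lt (β := β × ℕ)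
    (p := fun s a => ∃ b < bnd s.2, ∃ c < bnd s.2, ∃ d < bnd s.2, chk (mem s.1) s.2 a b c d)
    ?_ (bnd_prim.comp snd)
  refine ex_lt (β := (β × ℕ) × ℕ)
    (p := fun s b => ∃ c < bnd s.1.2, ∃ d < bnd s.1.2, chk (mem s.1.1) s.1.2 s.2 b c d)
    ?_ (bnd_prim.comp (snd.comp fst))
  refine ex_lt (β := ((β × ℕ) × ℕ) × ℕ)
    (p := fun s c => ∃ d < bnd s.1.1.2, chk (mem s.1.1.1) s.1.1.2 s.1.2 s.2 c d)
    ?_ (bnd_prim.comp (snd.comp (fst.comp fst)))
  refine ex_lt (β := (((β × ℕ) × ℕ) × ℕ) × ℕ)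
    (p := fun s d => chk (mem s.1.1.1.1) s.1.1.1.2 s.1.1.2 s.1.2 s.2 d)
    ?_ (bnd_prim.comp (snd.comp (fst.comp (fst.comp fst))))
  unfold chk
  -- s : ((((β × ℕ) × ℕ) × ℕ) × ℕ) × ℕ
  have c1 : PrimrecPred (fun s : ((((β × ℕ) × ℕ) × ℕ) × ℕ) × ℕ => s.1.1.2 ≠ 0) :=
    PrimrecPred.not (Primrec.eq.comp (snd.comp (fst.comp fst)) (const 0))
  have c2 : PrimrecPred (fun s : ((((β × ℕ) × ℕ) × ℕ) × ℕ) × ℕ => s.1.2 ≠ 0) :=
    PrimrecPred.not (Primrec.eq.comp (snd.comp fst) (const 0))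
  refine c1.and (c2.and ?_)
  refine all_lt (β := ((((β × ℕ) × ℕ) × ℕ) × ℕ) × ℕ)
    (p := fun s x => x = 0 ∨ (mem s.1.1.1.1.1 x ↔ (s.1.1.1.2 * x) % s.1.1.2 + s.2 ≤ s.1.2 * x))
    ?_ (nat_add.comp (nat_mul.comp (const 2) (snd.comp (fst.comp (fst.comp (fst.comp fst)))))
      (const 1))
  have d1 : PrimrecPred (fun s : (((((β × ℕ) × ℕ) × ℕ) × ℕ) × ℕ) × ℕ => s.2 = 0) :=
    Primrec.eq.comp snd (const 0)
  refine d1.or (pred_iff ?_ ?_)
  · exact hm.comp (fst.comp (fst.comp (fst.comp (fst.comp (fst.comp fst))))) snd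
  · refine nat_le.comp ?_ ?_
    · refine nat_add.comp (nat_mod.comp (nat_mul.comp ?_ snd) ?_) ?_
      · exact snd.comp (fst.comp (fst.comp (fst.comp fst)))
      · exact snd.comp (fst.comp (fst.comp fst))
      · exact snd.comp fst
    · exact nat_mul.comp (snd.comp (fst.comp fst)) snd

omit [Primcodable β] in
lemma srch_spec (mem : β → ℕ → Prop) (s : β) (S : AddSubmonoid ℕ) (hmem : ∀ n, mem s n ↔ n ∈ S)
    (N : ℕ) (hN : 1 ≤ N) (hS : ∀ n ≥ N, n ∈ S) : srch mem s N ↔ IsCPM (S : Set ℕ) := by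
  have h : mem s = (· ∈ S) := by funext n; exact propext (hmem n)
  unfold srch
  rw [h]
  constructor
  · rintro ⟨a, _, b, _, c, _, d, _, hc⟩
    exact chk_sound S N hN hS a b c d hc
  · exact chk_complete S N hN hS

/-! ### gap lists -/

lemma sum_prim : Primrec (fun l : List ℕ => l.sum) := by
  have h : Primrec (fun l : List ℕ => l.foldr (fun b s => b + s) 0) :=
    list_foldr (f := fun l : List ℕ => l) (g := fun _ => 0) (h := fun _ p => p.1 + p.2)
      Primrec.id (const 0) (nat_add.comp (fst.comp snd) (snd.comp snd))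
  exact h.of_eq (fun l => by rw [List.sum])

lemma mem_list_prim : PrimrecRel (fun (l : List ℕ) (n : ℕ) => n ∉ l) := by
  have h : PrimrecRel (fun (a b : ℕ) => a = b) := Primrec.eq
  have h2 : PrimrecRel (fun (l : List ℕ) (n : ℕ) => ∃ a ∈ l, a = n) := h.exists_mem_list
  exact (PrimrecPred.not h2).of_eq (by rintro ⟨l, n⟩; simp)

lemma le_sum_of_mem (l : List ℕ) (n : ℕ) (h : n ∈ l) : n ≤ l.sum := List.le_sum_of_mem h

theorem gap_version : ∃ f : List ℕ → Bool, Computable f ∧
    ∀ (l : List ℕ) (S : AddSubmonoid ℕ), (∀ n, n ∈ l ↔ n ∉ S) →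
      (f l = true ↔ IsCPM (S : Set ℕ)) := by
  classical
  have h1 : PrimrecPred (fun l : List ℕ => srch (fun l n => n ∉ l) l (l.sum + 1)) :=
    (srch_prim _ mem_list_prim).comp Primrec.id (nat_add.comp sum_prim (const 1))
  refine ⟨fun l => decide (srch (fun l n => n ∉ l) l (l.sum + 1)), h1.decide.to_comp, ?_⟩
  intro l S hl
  rw [decide_eq_true_eq]
  apply srch_spec _ _ _ _ _ (by omega)
  · intro n hn
    by_contra hcon
    have := le_sum_of_mem l n ((hl n).2 hcon)
    omega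
  · intro n
    show n ∉ l ↔ _
    rw [hl, not_not]

/-! ### generator lists -/

/-- the semigroup generated by a list -/
def gen (l : List ℕ) : AddSubmonoid ℕ := AddSubmonoid.closure {g | g ∈ l}

lemma mem_gen_iff (l : List ℕ) (n : ℕ) :
    n ∈ gen l ↔ n = 0 ∨ ∃ g ∈ l, 1 ≤ g ∧ g ≤ n ∧ n - g ∈ gen l := by
  constructor
  · intro h
    unfold gen at h
    induction h using AddSubmonoid.closure_induction with
    | mem x hx =>
      by_cases h0 : x = 0
      · exact Or.inl h0
      · right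
        refine ⟨x, hx, by omega, le_rfl, ?_⟩
        rw [Nat.sub_self]; exact (gen l).zero_mem
    | zero => exact Or.inl rfl
    | add x y hx hy ihx ihy =>
      rcases ihx with h0 | ⟨g, hg, h1, h2, h3⟩
      · rw [h0, zero_add]; exact ihy
      · right
        refine ⟨g, hg, h1, by omega, ?_⟩
        have : x + y - g = (x - g) + y := by omega
        rw [this]
        exact (gen l).add_mem h3 hy
  · rintro (h | ⟨g, hg, _, h2, h3⟩)
    · rw [h]; exact (gen l).zero_mem
    · have h4 : g ∈ gen l := AddSubmonoid.subset_closure hg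
      have h5 : n = (n - g) + g := by omega
      rw [h5]
      exact (gen l).add_mem h3 h4

lemma gen_prim : PrimrecRel (fun (l : List ℕ) (n : ℕ) => n ∈ gen l) := by
  classical
  let R : ℕ → (List Bool) → Prop := fun g L => 1 ≤ g ∧ g ≤ L.length ∧ L.getD (L.length - g) false = true
  have hR : PrimrecRel R := by
    refine PrimrecPred.and (p := fun x : ℕ × List Bool => 1 ≤ x.1)
      (nat_le.comp (const 1) fst) (PrimrecPred.and (p := fun x : ℕ × List Bool => x.1 ≤ x.2.length)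
      (nat_le.comp fst (list_length.comp snd)) ?_)
    exact Primrec.eq.comp ((list_getD false).comp snd
      (nat_sub.comp (list_length.comp snd) fst)) (const true)
  let G : List ℕ → List Bool → Prop := fun l L => L.length = 0 ∨ ∃ g ∈ l, R g L
  have hG : PrimrecRel G := by
    refine PrimrecPred.or (p := fun x : List ℕ × List Bool => x.2.length = 0)
      (Primrec.eq.comp (list_length.comp snd) (const 0)) ?_
    exact hR.exists_mem_list
  have hg : Primrec₂ (fun (l : List ℕ) (L : List Bool) => some (decide (G l L))) :=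
    option_some.comp hG.decide
  have hf : Primrec₂ (fun (l : List ℕ) (n : ℕ) => decide (n ∈ gen l)) := by
    refine nat_strong_rec _ hg ?_
    intro l n
    congr 1
    rw [decide_eq_decide, mem_gen_iff]
    show ((List.range n).map _).length = 0 ∨ (∃ g ∈ l, R g _) ↔ _
    rw [List.length_map, List.length_range]
    apply or_congr Iff.rfl
    apply exists_congr
    intro g
    apply and_congr Iff.rfl
    show 1 ≤ g ∧ g ≤ ((List.range n).map _).length ∧
      ((List.range n).map _).getD (((List.range n).map _).length - g) false = true ↔ _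
    rw [List.length_map, List.length_range]
    apply and_congr_right
    intro hg1
    apply and_congr_right
    intro hgn
    rw [List.getD_eq_getElem?_getD, List.getElem?_map, List.getElem?_range (by omega)]
    simp
  exact hf.primrecRel

/-- the stopping condition of the conductor search -/
def stopc (l : List ℕ) (n : ℕ) : Prop :=
  (1 ≤ n ∧ ∀ i < n + 1, n + i ∈ gen l) ∨ (∃ d < n + 1, 2 ≤ d ∧ ∀ g ∈ l, d ∣ g)

lemma stopc_prim : PrimrecRel stopc := by
  unfold stopc
  refine PrimrecPred.or (PrimrecPred.and (p := fun x : List ℕ × ℕ => 1 ≤ x.2)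
      (nat_le.comp (const 1) snd) ?_) ?_
  · refine all_lt (β := List ℕ × ℕ) (p := fun x i => x.2 + i ∈ gen x.1) ?_
      (nat_add.comp snd (const 1))
    exact gen_prim.comp (fst.comp fst) (nat_add.comp (snd.comp fst) snd)
  · refine ex_lt (β := List ℕ × ℕ) (p := fun x d => 2 ≤ d ∧ ∀ g ∈ x.1, d ∣ g) ?_
      (nat_add.comp snd (const 1))
    refine PrimrecPred.and (p := fun x : (List ℕ × ℕ) × ℕ => 2 ≤ x.2)
      (nat_le.comp (const 2) snd) ?_
    have h1 : PrimrecRel (fun (g : ℕ) (d : ℕ) => d ∣ g) := by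
      have h2 : PrimrecRel (fun (g : ℕ) (d : ℕ) => g % d = 0) :=
        Primrec.eq.comp (nat_mod.comp fst snd) (const 0)
      exact PrimrecPred.of_eq h2 (fun x => (Nat.dvd_iff_mod_eq_zero ..).symm)
    exact h1.forall_mem_list.comp (fst.comp fst) snd

lemma stopc_ex (l : List ℕ) : ∃ n, stopc l n := by
  by_cases h : ∃ d, 2 ≤ d ∧ ∀ g ∈ l, d ∣ g
  · obtain ⟨d, hd⟩ := h
    exact ⟨d, Or.inr ⟨d, by omega, hd⟩⟩
  · push Not at h
    obtain ⟨n, hn⟩ := Nat.exists_mem_closure_of_ge {g | g ∈ l}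
    refine ⟨n + 1, Or.inl ⟨by omega, fun i _ => hn _ (by omega) ?_⟩⟩
    have h1 : Nat.setGcd {g | g ∈ l} = 1 := by
      by_contra hne
      by_cases h0 : Nat.setGcd {g | g ∈ l} = 0
      · obtain ⟨g, hg, hg2⟩ := h 2 le_rfl
        apply hg2
        have h3 := Nat.setGcd_dvd_of_mem (s := {g | g ∈ l}) hg
        rw [h0, zero_dvd_iff] at h3
        rw [h3]; exact dvd_zero _
      · obtain ⟨g, hg, hg2⟩ := h (Nat.setGcd {g | g ∈ l}) (by omega)
        exact hg2 (Nat.setGcd_dvd_of_mem (s := {g | g ∈ l}) hg)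
    rw [h1]; exact one_dvd _

lemma stopc_use (l : List ℕ) (hgcd : ∀ d : ℕ, (∀ g ∈ l, d ∣ g) → d = 1) (N : ℕ)
    (h : stopc l N) : 1 ≤ N ∧ ∀ n ≥ N, n ∈ gen l := by
  unfold stopc at h
  rcases h with ⟨hN1, h2⟩ | ⟨d, _, hd2, hd⟩
  · refine ⟨hN1, ?_⟩
    intro n
    induction n using Nat.strong_induction_on with
    | _ n ih =>
      intro hn
      by_cases hn2 : n ≤ 2 * N
      · have := h2 (n - N) (by omega)
        have e : N + (n - N) = n := by omega
        rwa [e] at this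
      · have a1 := ih (n - N) (by omega) (by omega)
        have a2 := ih N (by omega) le_rfl
        have e : n = (n - N) + N := by omega
        rw [e]
        exact (gen l).add_mem a1 a2
  · have := hgcd d hd
    omega

open Classical in
lemma conductor_computable :
    ∃ c : List ℕ → ℕ, Computable c ∧ ∀ l, stopc l (c l) :=
  ⟨fun l => Nat.find (stopc_ex l),
    Computable.find (P := stopc) (PrimrecPred.computablePred stopc_prim) stopc_ex,
    fun l => Nat.find_spec (stopc_ex l)⟩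

open Classical in
lemma gen_srch_computable (c : List ℕ → ℕ) (hcc : Computable c) :
    Computable (fun l : List ℕ => decide (srch (fun l n => n ∈ gen l) l (c l))) := by
  have hs : PrimrecRel (srch (fun (l : List ℕ) (n : ℕ) => n ∈ gen l)) := srch_prim _ gen_prim
  have hs' : Primrec₂ (fun (l : List ℕ) (n : ℕ) => decide (srch (fun l n => n ∈ gen l) l n)) :=
    hs.decide
  exact hs'.to_comp.comp Computable.id hcc

lemma gen_srch_spec (c : List ℕ → ℕ) (hcs : ∀ l, stopc l (c l)) (l : List ℕ)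
    (hgcd : ∀ d : ℕ, (∀ g ∈ l, d ∣ g) → d = 1) :
    srch (fun l n => n ∈ gen l) l (c l) ↔ IsCPM (AddSubmonoid.closure {g | g ∈ l} : Set ℕ) := by
  obtain ⟨h1, h2⟩ := stopc_use l hgcd (c l) (hcs l)
  exact srch_spec (fun l n => n ∈ gen l) l (gen l) (fun n => Iff.rfl) (c l) h1 h2

open Classical in
theorem gen_version : ∃ f : List ℕ → Bool, Computable f ∧
    ∀ (l : List ℕ), (∀ g ∈ l, 0 < g) → (∀ d : ℕ, (∀ g ∈ l, d ∣ g) → d = 1) →
      (f l = true ↔ IsCPM (AddSubmonoid.closure {g | g ∈ l} : Set ℕ)) := by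
  obtain ⟨c, hcc, hcs⟩ := conductor_computable
  refine ⟨_, gen_srch_computable c hcc, ?_⟩
  intro l _ hgcd
  rw [decide_eq_true_iff]
  exact gen_srch_spec c hcs l hgcd

end comp

/-- **MP_bd8ab5_nt, Q1: yes.** -/
theorem result :
    (∃ f : List ℕ → Bool, Computable f ∧
      ∀ l : List ℕ, (∀ g ∈ l, 0 < g) → (∀ d : ℕ, (∀ g ∈ l, d ∣ g) → d = 1) →
        (f l = true ↔ IsCPM (AddSubmonoid.closure {g | g ∈ l} : Set ℕ))) ∧
    (∃ f : List ℕ → Bool, Computable f ∧
      ∀ (l : List ℕ) (S : AddSubmonoid ℕ), (∀ n, n ∈ l ↔ n ∉ S) →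
        (f l = true ↔ IsCPM (S : Set ℕ))) :=
  ⟨gen_version, gap_version⟩

end Pool.Agent.Results.MP_bd8ab5_nt.CPMDecidable
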